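import Pool.Agent.Work.MP_46fa68_14.Rare3
import Pool.Agent.Work.MP_46fa68_95.FlagCell

/-!
# MP_46fa68_co, S4 glue (helper68): from the joint certificate (limit form) to the density gap

`JCert n m W1 s11 s12 W2 s22 δ` for all `δ > 0` (helper14) is invariant under the scaling `f ↦ c f`, `al ↦ c² al`.
So a density `δ` in `(β, p)` is excluded when `θ² s12² δ (1 - δ) > (W1 - θ s11 δ) (W2 - θ s22 (1 - δ))`; the difference
is concave in `δ` if `s11 s22 ≤ s12²`, so that the two end points suffice.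
-/

set_option autoImplicit false

open Finset Equiv

namespace Pool.JM.Rare

open Pool.JM Pool.EG

theorem G_smul {N M : ℕ} (c : ℝ) (a : Finset ℕ → ℝ) (k : ℕ) :
    G N M (fun C => c * a C) k = c • G N M a k := by
  unfold G
  rw [smul_sum]
  exact sum_congr rfl fun B _ => by rw [smul_smul]

theorem harm_smul {M m k : ℕ} {a : Finset ℕ → ℝ} (c : ℝ) (ha : Harm M m k a) :
    Harm M m k (fun C => c * a C) := by
  intro j h1 h2 C hC
  simp only
  rw [ha j h1 h2 C hC, mul_sum]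
  exact sum_congr rfl fun x _ => by ring

theorem val_smul {N M m : ℕ} {a : Finset ℕ → ℝ} {p q c : ℝ} (hc : 0 ≤ c) (h : Val N M m a p q) :
    Val N M m (fun C => c * a C) (c * p) (c * q) := by
  intro σ hσ
  rw [G_smul, Matrix.smul_apply, smul_eq_mul]
  refine (mul_le_mul_of_nonneg_left (h σ hσ) hc).trans (le_of_eq ?_)
  split_ifs <;> ring

theorem loss_smul (M m k : ℕ) {c : ℝ} (hc : 0 ≤ c) (a b : Finset ℕ → ℝ) :
    loss M m k (fun B => c * a B) (fun B => c * b B) = c * loss M m k a b := by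
  unfold loss
  rw [mul_left_comm, mul_sum (a := c)]
  congr 1
  refine sum_congr rfl fun B _ => ?_
  rw [← mul_sub, abs_mul, abs_of_nonneg hc]
  ring

/-- scaling of a certificate -/
theorem JCert_scale {n m : ℕ} {W1 s11 s12 W2 s22 : ℝ}
    (H : ∀ δ : ℝ, 0 < δ → JCert n m W1 s11 s12 W2 s22 δ) {c : ℝ} (hc : 0 < c) :
    ∀ δ : ℝ, 0 < δ → JCert n m (c ^ 2 * W1) (c ^ 2 * s11) (c * s12) W2 s22 δ := by
  intro δ hδ
  have hD : 0 < c ^ 2 + c + 1 := by positivity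
  obtain ⟨M, al0, f0, g0, al, ph, f, g, ff, q1, q2, q3, c1, c2, c3, hM, ⟨ha1, ha2⟩,
    ⟨hf1, hf2⟩, ⟨hg1, hg2⟩, ⟨l1, l2, l3⟩, ⟨p1, p2, p3⟩, hg, hal⟩ :=
    H (δ / (c ^ 2 + c + 1)) (div_pos hδ hD)
  have hd0 : 0 ≤ δ / (c ^ 2 + c + 1) := (div_pos hδ hD).le
  have hd : (c ^ 2 + c + 1) * (δ / (c ^ 2 + c + 1)) = δ := by field_simp
  have hc2 : 0 ≤ c ^ 2 := sq_nonneg c
  refine ⟨M, fun C => c ^ 2 * al0 C, fun C => c * f0 C, g0, fun C => c ^ 2 * al C,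
    fun C => c * ph C, fun C => c * f C, g, c * ff, c ^ 2 * q1, c * q2, q3, c ^ 2 * c1,
    c * c2, c3, hM, ⟨harm_smul _ ha1, val_smul hc2 ha2⟩, ⟨harm_smul _ hf1, val_smul hc.le hf2⟩,
    ⟨hg1, hg2⟩, ⟨?_, ?_, l3⟩, ⟨?_, ?_, ?_⟩, hg, ?_⟩
  · rw [loss_smul M m n hc2]
    exact mul_le_mul_of_nonneg_left l1 hc2
  · rw [loss_smul M m (n + 1) hc.le]
    exact mul_le_mul_of_nonneg_left l2 hc.le
  · have h1 := mul_le_mul_of_nonneg_left p1 hc2
    have h2 : c ^ 2 * (δ / (c ^ 2 + c + 1)) ≤ δ := by nlinarith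
    nlinarith
  · have h1 := mul_le_mul_of_nonneg_left p2 hc.le
    have h2 : c * (δ / (c ^ 2 + c + 1)) ≤ δ := by nlinarith
    nlinarith
  · have h2 : δ / (c ^ 2 + c + 1) ≤ δ := by nlinarith [mul_nonneg hc2 hd0, mul_nonneg hc.le hd0]
    linarith
  · intro C hC
    refine le_trans (le_of_eq ?_) (mul_le_mul_of_nonneg_left (hal C hC) hc2)
    rw [mul_sum]
    refine sum_congr rfl fun x _ => ?_
    have e : (c * f (mv C x) - c * ph C) ^ 2 = c ^ 2 * (f (mv C x) - ph C) ^ 2 := by ring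
    rw [e, mul_div_assoc]
    ring

/-- the cell inequality of the limit certificate -/
theorem cellIneq_of_JCert {n m : ℕ} (hm : m ≤ n) {W1 s11 s12 W2 s22 : ℝ}
    (H : ∀ δ : ℝ, 0 < δ → JCert n m W1 s11 s12 W2 s22 δ) :
    CellIneq (n + 1) (n + 1 - m) W1 W2 s11 s12 s22 := by
  intro A hA x y
  have e : n + 1 - (n + 1 - m) = m := by omega
  rw [e]
  exact joint_cell_lim hm W1 s11 s12 W2 s22 H A hA x y

end Pool.JM.Rare

namespace Pool.EG

open Pool.JM Pool.JM.Rare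

/-- a concave quadratic is positive between two points where it is nonnegative -/
theorem quad_pos {a b c x y z : ℝ} (ha : a < 0) (hxy : x < y) (hyz : y < z)
    (hx : 0 ≤ a * x ^ 2 + b * x + c) (hz : 0 ≤ a * z ^ 2 + b * z + c) :
    0 < a * y ^ 2 + b * y + c := by
  have h1 : (z - x) * (a * y ^ 2 + b * y + c) = (z - y) * (a * x ^ 2 + b * x + c) +
      (y - x) * (a * z ^ 2 + b * z + c) + (-a) * ((y - x) * (z - y) * (z - x)) := by ring
  have h2 : 0 < (-a) * ((y - x) * (z - y) * (z - x)) := by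
    apply mul_pos (by linarith)
    apply mul_pos (mul_pos (by linarith) (by linarith)) (by linarith)
  have h3 : 0 ≤ (z - y) * (a * x ^ 2 + b * x + c) := mul_nonneg (by linarith) hx
  have h4 : 0 ≤ (y - x) * (a * z ^ 2 + b * z + c) := mul_nonneg (by linarith) hz
  have h5 : 0 < (z - x) * (a * y ^ 2 + b * y + c) := by rw [h1]; linarith
  exact (mul_pos_iff_of_pos_left (by linarith)).1 h5

/-- **density gap from one certificate whose cross part can be scaled freely** -/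
theorem gap_of_scaled {n t : ℕ} {θ β p W1 s11 s12 W2 s22 : ℝ} (hθ : 0 < θ)
    (hβ : 0 ≤ β) (hp : p ≤ 1) (hs12 : 0 < s12)
    (hdisc : s11 * s22 < s12 ^ 2) (hW : 0 ≤ W1 - θ * s11 * p) (hW1 : 0 < W1) (hW2 : 0 ≤ W2)
    (H : ∀ c : ℝ, 0 < c → CellIneq n t (c ^ 2 * W1) W2 (c ^ 2 * s11) (c * s12) s22)
    (h1 : (W1 - θ * s11 * β) * (W2 - θ * s22 * (1 - β)) ≤ θ ^ 2 * s12 ^ 2 * (β * (1 - β)))
    (h2 : (W1 - θ * s11 * p) * (W2 - θ * s22 * (1 - p)) ≤ θ ^ 2 * s12 ^ 2 * (p * (1 - p))) :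
    Gap n t θ β p := by
  refine gap_of_cells hθ.le fun δ hδ1 hδ2 => ?_
  have hδ0 : 0 < δ := lt_of_le_of_lt hβ hδ1
  have hδ3 : 0 < 1 - δ := by linarith
  -- the quadratic
  have hq : 0 < θ ^ 2 * s12 ^ 2 * (δ * (1 - δ)) -
      (W1 - θ * s11 * δ) * (W2 - θ * s22 * (1 - δ)) := by
    have ha : -(θ ^ 2 * (s12 ^ 2 - s11 * s22)) < 0 := by
      have : 0 < θ ^ 2 * (s12 ^ 2 - s11 * s22) := mul_pos (by positivity) (by linarith)
      linarith
    have h := quad_pos (a := -(θ ^ 2 * (s12 ^ 2 - s11 * s22)))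
      (b := θ ^ 2 * s12 ^ 2 - (W1 * (θ * s22) - θ * s11 * (W2 - θ * s22)))
      (c := -(W1 * (W2 - θ * s22))) ha hδ1 hδ2 (by nlinarith) (by nlinarith)
    nlinarith
  have hA : 0 < W1 - θ * s11 * δ := by
    rcases le_or_gt s11 0 with h | h
    · have : θ * s11 * δ ≤ 0 :=
        mul_nonpos_of_nonpos_of_nonneg (mul_nonpos_of_nonneg_of_nonpos hθ.le h) hδ0.le
      linarith
    · have : θ * s11 * δ < θ * s11 * p := mul_lt_mul_of_pos_left hδ2 (mul_pos hθ h)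
      linarith
  set A := W1 - θ * s11 * δ with hAdef
  set c := θ * s12 * (1 - δ) / A with hc
  have hc0 : 0 < c := by positivity
  clear_value c A
  have hcA : c * A = θ * s12 * (1 - δ) := by
    rw [hc]
    field_simp
  -- c² A δ - 2 c θ s12 δ (1-δ) + (1-δ) (W2 - θ s22 (1-δ)) < 0
  have e1 : c ^ 2 * W1 * δ + W2 * (1 - δ) - θ * (c ^ 2 * s11 * δ ^ 2 +
      2 * (c * s12) * δ * (1 - δ) + s22 * (1 - δ) ^ 2) =
      c ^ 2 * A * δ - 2 * c * (θ * s12 * (1 - δ)) * δ + (1 - δ) * (W2 - θ * s22 * (1 - δ)) := by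
    rw [hAdef]
    ring
  have e2 : A * (c ^ 2 * A * δ - 2 * c * (θ * s12 * (1 - δ)) * δ +
      (1 - δ) * (W2 - θ * s22 * (1 - δ))) =
      -((1 - δ) * (θ ^ 2 * s12 ^ 2 * (δ * (1 - δ)) - A * (W2 - θ * s22 * (1 - δ)))) := by
    rw [← hcA]
    have : θ ^ 2 * s12 ^ 2 * (δ * (1 - δ)) * (1 - δ) = (c * A) ^ 2 * δ := by rw [hcA]; ring
    linear_combination (1 : ℝ) * this
  have e3 : c ^ 2 * A * δ - 2 * c * (θ * s12 * (1 - δ)) * δ +
      (1 - δ) * (W2 - θ * s22 * (1 - δ)) < 0 := by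
    by_contra hcon
    push Not at hcon
    have h3 := mul_nonneg hA.le hcon
    rw [e2] at h3
    have h4 := mul_pos hδ3 hq
    linarith
  have e4 : c ^ 2 * W1 * δ + W2 * (1 - δ) < θ * (c ^ 2 * s11 * δ ^ 2 +
      2 * (c * s12) * δ * (1 - δ) + s22 * (1 - δ) ^ 2) := by linarith
  refine ⟨c ^ 2 * W1, W2, c ^ 2 * s11, c * s12, s22, H c hc0, ?_, e4⟩
  have g1 : 0 ≤ c ^ 2 * W1 * δ := by positivity
  have g2 : 0 ≤ W2 * (1 - δ) := by positivity
  exact (mul_pos_iff_of_pos_left hθ).1 (lt_of_le_of_lt (add_nonneg g1 g2) e4)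

/-- **density gap from a joint certificate in the limit form** -/
theorem gap_of_JCert {n m : ℕ} (hm : m ≤ n) {θ β p W1 s11 s12 W2 s22 : ℝ} (hθ : 0 < θ)
    (hβ : 0 ≤ β) (hp : p ≤ 1) (hs12 : 0 < s12)
    (hdisc : s11 * s22 < s12 ^ 2) (hW : 0 ≤ W1 - θ * s11 * p) (hW1 : 0 < W1) (hW2 : 0 ≤ W2)
    (H : ∀ δ : ℝ, 0 < δ → JCert n m W1 s11 s12 W2 s22 δ)
    (h1 : (W1 - θ * s11 * β) * (W2 - θ * s22 * (1 - β)) ≤ θ ^ 2 * s12 ^ 2 * (β * (1 - β)))
    (h2 : (W1 - θ * s11 * p) * (W2 - θ * s22 * (1 - p)) ≤ θ ^ 2 * s12 ^ 2 * (p * (1 - p))) :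
    Gap (n + 1) (n + 1 - m) θ β p :=
  gap_of_scaled hθ hβ hp hs12 hdisc hW hW1 hW2
    (fun _ hc => cellIneq_of_JCert hm (JCert_scale H hc)) h1 h2

/-- `alpha` constant: `s11 = 0`, `s12 = s22 = 1`, `W2 = 1 + g`, `W1 = V`: the criterion `θ (1-δ) (1 + θ δ / V) ≥ 1 + g`
at the two ends -/
theorem gap_of_JCert_const {n m : ℕ} (hm : m ≤ n) {θ β p V g : ℝ} (hθ : 0 < θ)
    (hβ : 0 ≤ β) (hp : p ≤ 1) (hV : 0 < V) (hg : 0 ≤ 1 + g)
    (H : ∀ δ : ℝ, 0 < δ → JCert n m V 0 1 (1 + g) 1 δ)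
    (h1 : 1 + g ≤ θ * (1 - β) * (1 + θ * β / V))
    (h2 : 1 + g ≤ θ * (1 - p) * (1 + θ * p / V)) :
    Gap (n + 1) (n + 1 - m) θ β p := by
  refine gap_of_JCert hm hθ hβ hp one_pos (by norm_num) (by simpa using hV.le) hV hg H ?_ ?_
  · have h3 := mul_le_mul_of_nonneg_left h1 hV.le
    have e : V * (θ * (1 - β) * (1 + θ * β / V)) = θ * (1 - β) * (V + θ * β) := by
      field_simp
    rw [e] at h3
    nlinarith
  · have h3 := mul_le_mul_of_nonneg_left h2 hV.le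
    have e : V * (θ * (1 - p) * (1 + θ * p / V)) = θ * (1 - p) * (V + θ * p) := by
      field_simp
    rw [e] at h3
    nlinarith

end Pool.EG
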